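import Pool.Agent.Helper25.CL.Semi

/-!
The eigenspace argument: a nonscalar matrix commuting with a semilinear map `T`, `T ^ l = a`,
with an eigenvalue in the base field makes `a` a norm.
-/

namespace Pool.Agent.Helper25.CL

open Matrix Module

variable {F E : Type*} [Field F] [Field E] [Algebra F E]

/-- abstract form of (R5) -/
theorem norm_of_eigen [FiniteDimensional F E] [IsGalois F E] (l : ℕ) (hl : l.Prime)
    (hfin : finrank F E = l) (s : E ≃ₐ[F] E) (hs : ∀ g : E ≃ₐ[F] E, g ∈ Subgroup.zpowers s)
    (a : F) (ha : a ≠ 0) (S M : Matrix (Fin l) (Fin l) E)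
    (hS : ∀ x : Fin l → E, (fun y : Fin l → E => (fun i => s (y i)) ᵥ* S)^[l] x =
      algebraMap F E a • x)
    (hM : M.map s * S = S * M)
    (lam : F) (hlam : (M - algebraMap F E lam • (1 : Matrix (Fin l) (Fin l) E)).det = 0)
    (hne : M ≠ algebraMap F E lam • (1 : Matrix (Fin l) (Fin l) E)) :
    ∃ y : E, Algebra.norm F y = a := by
  classical
  set N : Matrix (Fin l) (Fin l) E := M - algebraMap F E lam • (1 : Matrix (Fin l) (Fin l) E)
    with hN
  set W : Submodule E (Fin l → E) := LinearMap.ker (Matrix.vecMulLinear N) with hW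
  have hmem : ∀ x : Fin l → E, x ∈ W ↔ x ᵥ* N = 0 := fun x => by
    rw [hW, LinearMap.mem_ker]
    rfl
  have hNS : N.map s * S = S * N := by
    rw [hN]
    have h1 : (M - algebraMap F E lam • (1 : Matrix (Fin l) (Fin l) E)).map s =
        M.map s - algebraMap F E lam • (1 : Matrix (Fin l) (Fin l) E) := by
      ext i j
      simp only [Matrix.map_apply, Matrix.sub_apply, Matrix.smul_apply, map_sub, smul_eq_mul,
        map_mul, AlgEquiv.commutes, Matrix.one_apply]
      split_ifs <;> simp
    rw [h1, Matrix.sub_mul, Matrix.mul_sub, hM]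
    congr 1
    rw [Matrix.smul_mul, Matrix.mul_smul, Matrix.one_mul, Matrix.mul_one]
  set T0 : (Fin l → E) → (Fin l → E) := fun y => (fun i => s (y i)) ᵥ* S with hT0
  have hTW : ∀ x ∈ W, T0 x ∈ W := by
    intro x hx
    rw [hmem] at hx ⊢
    rw [hT0]
    simp only
    rw [Matrix.vecMul_vecMul, ← hNS, ← Matrix.vecMul_vecMul]
    have h2 : (fun i => s (x i)) ᵥ* N.map s = 0 := by
      ext j
      have h3 := congrFun hx j
      simp only [Matrix.vecMul, dotProduct, Pi.zero_apply] at h3 ⊢
      have h4 := congrArg s h3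
      rw [map_sum, map_zero] at h4
      rw [← h4]
      refine Finset.sum_congr rfl fun i _ => ?_
      rw [map_mul, Matrix.map_apply]
    rw [h2, Matrix.zero_vecMul]
  set T : W → W := fun x => ⟨T0 x, hTW x x.2⟩ with hT
  have hT0add : ∀ x y, T0 (x + y) = T0 x + T0 y := by
    intro x y
    rw [hT0]
    simp only
    rw [← Matrix.add_vecMul]
    congr 1
    ext i
    simp
  have hT0sm : ∀ (c : E) x, T0 (c • x) = s c • T0 x := by
    intro c x
    rw [hT0]
    simp only
    rw [← Matrix.smul_vecMul]
    congr 1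
    ext i
    simp
  have hadd : ∀ x y, T (x + y) = T x + T y := fun x y => Subtype.ext (hT0add x y)
  have hsm : ∀ (c : E) x, T (c • x) = s c • T x := fun c x => Subtype.ext (hT0sm c x)
  have hiter : ∀ m (x : W), ((T^[m] x : W) : Fin l → E) = T0^[m] x := by
    intro m
    induction m with
    | zero => intro x; rfl
    | succ m ih => intro x; rw [Function.iterate_succ_apply, Function.iterate_succ_apply, ih]
  have hTl : ∀ x, T^[l] x = algebraMap F E a • x := fun x => Subtype.ext (by
    rw [hiter l x]
    exact hS x)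
  obtain ⟨d, hd⟩ := semi_det s T hadd hsm l a hTl
  rw [← norm_cyc s hs l hfin d, ← map_pow] at hd
  have hd2 : Algebra.norm F d = a ^ finrank E W := (algebraMap F E).injective hd
  -- the dimension of the eigenspace
  have hpos : 0 < finrank E W := by
    rw [Module.finrank_pos_iff, Submodule.nontrivial_iff_ne_bot]
    intro hbot
    obtain ⟨v, hv, hv0⟩ := (Matrix.exists_vecMul_eq_zero_iff (M := N)).2 hlam
    have : v ∈ W := (hmem v).2 hv0
    rw [hbot, Submodule.mem_bot] at this
    exact hv this
  have hlt : finrank E W < l := by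
    have hle : finrank E W ≤ finrank E (Fin l → E) := Submodule.finrank_le W
    rw [Module.finrank_fin_fun] at hle
    refine lt_of_le_of_ne hle fun heq => hne ?_
    have htop : W = ⊤ := Submodule.eq_top_of_finrank_eq (by rw [heq, Module.finrank_fin_fun])
    have hN0 : N = 0 := by
      ext i j
      have h5 : (Pi.single i 1 : Fin l → E) ∈ W := by rw [htop]; trivial
      rw [hmem] at h5
      have h6 := congrFun h5 j
      simpa [Matrix.single_one_vecMul] using h6
    exact sub_eq_zero.1 hN0
  have hcop : Nat.Coprime (finrank E W) l :=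
    Nat.Coprime.symm ((Nat.Prime.coprime_iff_not_dvd hl).2 (Nat.not_dvd_of_pos_of_lt hpos hlt))
  exact norm_of_pow l _ hcop a ha hfin d hd2

/-- the cyclic shift with `a` in the corner: `T x j = s (x (j - 1))`, `T x 0 = a s (x (l - 1))` -/
theorem shift_iter (l : ℕ) (hl : 0 < l) (s : E ≃ₐ[F] E) (hsl : ∀ x, (s ^ l) x = x) (a : F)
    (T : (Fin l → E) → (Fin l → E))
    (h0 : ∀ x, T x ⟨0, hl⟩ = algebraMap F E a * s (x ⟨l - 1, by omega⟩))
    (h1 : ∀ x (j : ℕ) (hj : j + 1 < l), T x ⟨j + 1, hj⟩ = s (x ⟨j, by omega⟩))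
    (x : Fin l → E) : T^[l] x = algebraMap F E a • x := by
  have key : ∀ m, m ≤ l → ∀ j (hj : j < l), T^[m] x ⟨j, hj⟩ =
      if h : m ≤ j then (s ^ m) (x ⟨j - m, by omega⟩)
      else algebraMap F E a * (s ^ m) (x ⟨j + l - m, by omega⟩) := by
    intro m
    induction m with
    | zero =>
      intro _ j hj
      simp
    | succ m ih =>
      intro hm j hj
      rw [Function.iterate_succ_apply']
      rcases Nat.eq_zero_or_pos j with rfl | hjp
      · rw [h0, ih (by omega) (l - 1) (by omega), dif_pos (show m ≤ l - 1 by omega),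
          dif_neg (show ¬ (m + 1 ≤ 0) by omega), pow_succ' s m, AlgEquiv.mul_apply]
        congr 4
        apply Fin.ext
        simp
        omega
      · obtain ⟨i, rfl⟩ : ∃ i, j = i + 1 := ⟨j - 1, by omega⟩
        rw [h1, ih (by omega)]
        by_cases hmi : m ≤ i
        · rw [dif_pos hmi, dif_pos (by omega), pow_succ' s m, AlgEquiv.mul_apply]
          congr 3
          apply Fin.ext
          simp
        · rw [dif_neg hmi, dif_neg (by omega), pow_succ' s m, AlgEquiv.mul_apply, map_mul,
            AlgEquiv.commutes]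
          congr 4
          apply Fin.ext
          simp
          omega
  funext j
  obtain ⟨j, hj⟩ := j
  rw [key l le_rfl j hj, dif_neg (by omega)]
  rw [hsl]
  simp only [Pi.smul_apply, smul_eq_mul, Nat.add_sub_cancel]

end Pool.Agent.Helper25.CL
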