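import Mathlib

/-!
Semilinear determinants, and the norm lemma for cyclic extensions of prime degree.
-/

namespace Pool.Agent.Helper25.CL

open Matrix Module

section Semi

variable {F E : Type*} [Field F] [Field E] [Algebra F E]
variable {W : Type*} [AddCommGroup W] [Module E W]

/-- the matrices of the iterates of a semilinear map -/
theorem semi_iter [FiniteDimensional E W] (s : E ≃ₐ[F] E) (T : W → W)
    (hadd : ∀ x y, T (x + y) = T x + T y) (hsm : ∀ (c : E) x, T (c • x) = s c • T x) :
    ∃ A : Matrix (Fin (finrank E W)) (Fin (finrank E W)) E,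
      ∀ m : ℕ, ∃ B : Matrix (Fin (finrank E W)) (Fin (finrank E W)) E,
        B.det = ∏ i ∈ Finset.range m, (s ^ i) A.det ∧
        ∀ i, T^[m] (finBasis E W i) = ∑ j, B i j • finBasis E W j := by
  classical
  have hzero : T 0 = 0 := by
    have h := hadd 0 0
    rw [add_zero] at h
    simpa using h
  have hsum : ∀ (t : Finset (Fin (finrank E W))) (f : Fin (finrank E W) → W),
      T (∑ i ∈ t, f i) = ∑ i ∈ t, T (f i) := by
    intro t f
    induction t using Finset.induction_on with
    | empty => simpa using hzero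
    | insert a t ha ih => rw [Finset.sum_insert ha, Finset.sum_insert ha, hadd, ih]
  refine ⟨fun i j => (finBasis E W).repr (T (finBasis E W i)) j, fun m => ?_⟩
  set A : Matrix (Fin (finrank E W)) (Fin (finrank E W)) E :=
    fun i j => (finBasis E W).repr (T (finBasis E W i)) j with hA
  have hTA : ∀ i, T (finBasis E W i) = ∑ j, A i j • finBasis E W j := fun i =>
    ((finBasis E W).sum_repr (T (finBasis E W i))).symm
  induction m with
  | zero =>
    refine ⟨1, by simp, fun i => ?_⟩
    simp [Matrix.one_apply]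
  | succ m ih =>
    obtain ⟨B, hB, hT⟩ := ih
    refine ⟨(s : E →+* E).mapMatrix B * A, ?_, fun i => ?_⟩
    · rw [Matrix.det_mul, ← RingHom.map_det, hB, map_prod, Finset.prod_range_succ']
      congr 1
      refine Finset.prod_congr rfl fun i _ => ?_
      rw [pow_succ' s i]
      rfl
    · rw [Function.iterate_succ_apply', hT i, hsum]
      simp only [hsm, hTA, Finset.smul_sum, Matrix.mul_apply, Finset.sum_smul, smul_smul]
      rw [Finset.sum_comm]
      rfl

/-- the norm of the determinant of a semilinear map whose `l`-th power is a scalar -/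
theorem semi_det [FiniteDimensional E W] (s : E ≃ₐ[F] E) (T : W → W)
    (hadd : ∀ x y, T (x + y) = T x + T y) (hsm : ∀ (c : E) x, T (c • x) = s c • T x)
    (l : ℕ) (a : F) (hT : ∀ x, T^[l] x = algebraMap F E a • x) :
    ∃ d : E, ∏ i ∈ Finset.range l, (s ^ i) d = algebraMap F E a ^ finrank E W := by
  classical
  obtain ⟨A, hA⟩ := semi_iter s T hadd hsm
  obtain ⟨B, hB, hTB⟩ := hA l
  refine ⟨A.det, ?_⟩
  rw [← hB]
  have hBa : B = algebraMap F E a • (1 : Matrix (Fin (finrank E W)) (Fin (finrank E W)) E) := by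
    ext i j
    have h := hTB i
    rw [hT] at h
    have h2 := congrArg (fun x => (finBasis E W).repr x j) h
    simp only [map_smul, map_sum, Finsupp.smul_apply, Finsupp.finsetSum_apply,
      Basis.repr_self, Finsupp.single_apply, smul_eq_mul, mul_ite, mul_one, mul_zero,
      Finset.sum_ite_eq', Finset.mem_univ, if_true] at h2
    rw [← h2]
    simp [Matrix.one_apply]
  rw [hBa, Matrix.det_smul, Matrix.det_one, mul_one, Fintype.card_fin]

end Semi

section Norm

variable {F E : Type*} [Field F] [Field E] [Algebra F E]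

/-- if `a ^ k` is a norm with `k` prime to the degree, then `a` is a norm -/
theorem norm_of_pow [FiniteDimensional F E] (l k : ℕ) (hk : Nat.Coprime k l) (a : F) (ha : a ≠ 0)
    (hl : finrank F E = l) (y : E) (hy : Algebra.norm F y = a ^ k) :
    ∃ x : E, Algebra.norm F x = a := by
  have hal : Algebra.norm F (algebraMap F E a) = a ^ l := by
    rw [Algebra.norm_algebraMap, hl]
  have hbez := Nat.gcd_eq_gcd_ab k l
  rw [hk.gcd_eq_one] at hbez
  have hy0 : y ≠ 0 := by
    intro h
    rw [h, Algebra.norm_zero] at hy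
    exact pow_ne_zero k ha hy.symm
  have hal0 : algebraMap F E a ≠ 0 := by
    intro h
    exact ha ((algebraMap F E).injective (by rw [h, map_zero]))
  set N : Eˣ →* Fˣ := Units.map (Algebra.norm F) with hN
  have h1 : N (Units.mk0 y hy0) = (Units.mk0 a ha) ^ k := by
    ext
    simpa [hN] using hy
  have h2 : N (Units.mk0 _ hal0) = (Units.mk0 a ha) ^ l := by
    ext
    simpa [hN] using hal
  have h3 : N ((Units.mk0 y hy0) ^ (Nat.gcdA k l) * (Units.mk0 _ hal0) ^ (Nat.gcdB k l)) =
      Units.mk0 a ha := by
    rw [map_mul, map_zpow, map_zpow, h1, h2, ← zpow_natCast, ← zpow_natCast, ← _root_.zpow_mul,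
      ← _root_.zpow_mul, ← _root_.zpow_add, ← hbez]
    simp
  refine ⟨((Units.mk0 y hy0) ^ (Nat.gcdA k l) * (Units.mk0 _ hal0) ^ (Nat.gcdB k l) : Eˣ), ?_⟩
  have h4 := congrArg (fun u : Fˣ => (u : F)) h3
  exact h4

/-- the norm of a cyclic extension -/
theorem norm_cyc [FiniteDimensional F E] [IsGalois F E] (s : E ≃ₐ[F] E)
    (hs : ∀ g : E ≃ₐ[F] E, g ∈ Subgroup.zpowers s) (l : ℕ) (hl : finrank F E = l) (d : E) :
    algebraMap F E (Algebra.norm F d) = ∏ i ∈ Finset.range l, (s ^ i) d := by
  classical
  rw [Algebra.norm_eq_prod_automorphisms]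
  have hcard : Fintype.card (E ≃ₐ[F] E) = l := by
    rw [← hl, ← IsGalois.card_aut_eq_finrank F E, Nat.card_eq_fintype_card]
  have hord : orderOf s = l := by
    rw [← hcard]
    exact orderOf_eq_card_of_forall_mem_zpowers hs |>.trans Nat.card_eq_fintype_card
  rw [← hord]
  symm
  refine Finset.prod_bij (fun i _ => s ^ i) (fun i _ => Finset.mem_univ _) ?_ ?_ ?_
  · intro i hi j hj h
    exact pow_injOn_Iio_orderOf (by simpa using hi) (by simpa using hj) h
  · intro g _
    obtain ⟨n, hn⟩ := (mem_zpowers_iff_mem_range_orderOf (x := s) (y := g)).1 (hs g) |>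
      fun h => by simpa using h
    exact ⟨n, by simpa using hn.1, hn.2⟩
  · intro i _
    rfl

end Norm

end Pool.Agent.Helper25.CL
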